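import Pool.Agent.helper10.TY.Spec

set_option autoImplicit false

namespace Pool.Agent.TY

open Matrix Polynomial Pool.Agent.GO Pool.Agent.AR Pool.Agent.RG MeasureTheory

/-- the coefficient map -/
def CSQ_phi {F Γ X : Type*} [Field F] [AddCommGroup X] [Module F X] {d : ℕ}
    (T : Γ → X →ₗ[F] X) (l : Fin d → X →ₗ[F] F) : X →ₗ[F] (Fin d → Γ → F) where
  toFun x := fun i g => l i (T g x)
  map_add' x y := by
    ext i g
    simp
  map_smul' c x := by
    ext i g
    simp

/-- the sum of the maps `kap` -/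
noncomputable def CSQ_kap {F Γ m : Type*} [Field F] [Group Γ] [Fintype m] [DecidableEq m]
    (V : Γ →* Matrix m m F) {d N : ℕ} (a b : Fin N → ℕ) (c : Fin N → Fin d)
    (p : (j : Fin N) → (Fin (a j) → m) × (Fin (b j) → m)) :
    ((j : Fin N) → (Fin (a j) → m) × (Fin (b j) → m) → F) →ₗ[F] (Fin d → Γ → F) where
  toFun w := fun i => ∑ j, if c j = i then kap V (a j) (b j) (p j) (w j) else 0
  map_add' x y := by
    funext i
    rw [Pi.add_apply, ← Finset.sum_add_distrib]
    refine Finset.sum_congr rfl fun j _ => ?_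
    split_ifs
    · rw [Pi.add_apply, map_add]
    · rw [add_zero]
  map_smul' r x := by
    funext i
    rw [Pi.smul_apply, Finset.smul_sum]
    refine Finset.sum_congr rfl fun j _ => ?_
    rw [smul_ite, smul_zero]
    split_ifs
    · rw [Pi.smul_apply, map_smul, RingHom.id_apply]
    · rfl

theorem CSQ_kap_equiv {F Γ m : Type*} [Field F] [Group Γ] [Fintype m] [DecidableEq m]
    (V : Γ →* Matrix m m F) {d N : ℕ} (a b : Fin N → ℕ) (c : Fin N → Fin d)
    (p : (j : Fin N) → (Fin (a j) → m) × (Fin (b j) → m)) (g : Γ)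
    (w : (j : Fin N) → (Fin (a j) → m) × (Fin (b j) → m) → F) (i : Fin d) :
    CSQ_kap V a b c p (fun j => tens V (a j) (b j) g *ᵥ w j) i = rt g (CSQ_kap V a b c p w i) := by
  show (∑ j, if c j = i then kap V (a j) (b j) (p j) (tens V (a j) (b j) g *ᵥ w j) else 0) =
    rt g (∑ j, if c j = i then kap V (a j) (b j) (p j) (w j) else 0)
  rw [map_sum]
  refine Finset.sum_congr rfl fun j _ => ?_
  split_ifs
  · rw [kap_equiv]
  · rw [map_zero]

theorem CSQ_phi_equiv {F Γ X : Type*} [Field F] [Group Γ] [AddCommGroup X] [Module F X] {d : ℕ}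
    (T : Γ → X →ₗ[F] X) (hT : ∀ g h x, T (g * h) x = T g (T h x)) (l : Fin d → X →ₗ[F] F) (g : Γ) (x : X) (i : Fin d) :
    CSQ_phi T l (T g x) i = rt g (CSQ_phi T l x i) := by
  funext h
  show l i (T h (T g x)) = l i (T (h * g) x)
  rw [hT]

theorem CSQ : CSQ_stmt := by
  classical
  intro F Γ m X _ _ _ _ _ _ V T M _ hT1 hTm hTM hcoef
  -- a basis and functionals
  obtain ⟨d, β⟩ : ∃ d : ℕ, Nonempty (Module.Basis (Fin d) F M) := ⟨_, ⟨Module.finBasis F M⟩⟩
  obtain ⟨β⟩ := β
  have hext : ∀ i : Fin d, ∃ l : X →ₗ[F] F, l.comp M.subtype = β.coord i := fun i => LinearMap.exists_extend _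
  choose l hl using hext
  have hl' : ∀ (i : Fin d) (x : M), l i (x : X) = β.coord i x := fun i x => by
    rw [← hl i]
    rfl
  set φ := CSQ_phi T l with hφ
  set φM : M →ₗ[F] (Fin d → Γ → F) := φ.comp M.subtype with hφM
  have hinj : Function.Injective φM := by
    rw [← LinearMap.ker_eq_bot, LinearMap.ker_eq_bot']
    intro x hx
    apply β.ext_elem
    intro i
    have h1 : l i (T 1 (x : X)) = 0 := by
      have h2 : φM x i 1 = 0 := by rw [hx]; rfl
      exact h2
    rw [hT1, hl'] at h1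
    rw [map_zero]
    exact h1
  -- finitely many indices
  have hfin : ∀ q : Fin d × Fin d, ∃ s : Finset (Σ a b : ℕ, (Fin a → m) × (Fin b → m)),
      φ (β q.1 : X) q.2 ∈ ⨆ k ∈ s, Cs V k := by
    intro q
    have h1 : φ (β q.1 : X) q.2 ∈ alg V := hcoef (l q.2) _ (β q.1).2
    exact (Submodule.mem_iSup_iff_exists_finset).1 (mem_iSup_Cs V h1)
  choose s hs using hfin
  set t : Finset (Σ a b : ℕ, (Fin a → m) × (Fin b → m)) := Finset.univ.biUnion s with ht
  have hmem : ∀ x ∈ M, ∀ i, φ x i ∈ ⨆ k ∈ t, Cs V k := by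
    intro x hx i
    have h1 : φ x i = ∑ i', β.repr ⟨x, hx⟩ i' • φ (β i' : X) i := by
      have h2 : (⟨x, hx⟩ : M) = ∑ i', β.repr ⟨x, hx⟩ i' • β i' := (β.sum_repr _).symm
      have h3 : x = ∑ i', β.repr ⟨x, hx⟩ i' • (β i' : X) := by
        have h4 := congrArg (M.subtype) h2
        rw [map_sum] at h4
        simpa using h4
      calc φ x i = φ (∑ i', β.repr ⟨x, hx⟩ i' • (β i' : X)) i := by rw [← h3]
        _ = _ := by
          rw [map_sum, Finset.sum_apply]
          refine Finset.sum_congr rfl fun i' _ => ?_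
          rw [map_smul, Pi.smul_apply]
    rw [h1]
    refine Submodule.sum_mem _ fun i' _ => Submodule.smul_mem _ _ ?_
    have h5 : (⨆ k ∈ s (i', i), Cs V k) ≤ ⨆ k ∈ t, Cs V k := by
      refine iSup₂_le fun k hk => ?_
      exact le_iSup₂_of_le k (Finset.mem_biUnion.2 ⟨(i', i), Finset.mem_univ _, hk⟩) le_rfl
    exact h5 (hs (i', i))
  -- the index set
  let ε : Fin (Fintype.card (Fin d × t)) ≃ Fin d × t := (Fintype.equivFin _).symm
  let a : Fin (Fintype.card (Fin d × t)) → ℕ := fun j => (ε j).2.1.1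
  let b : Fin (Fintype.card (Fin d × t)) → ℕ := fun j => (ε j).2.1.2.1
  let c : Fin (Fintype.card (Fin d × t)) → Fin d := fun j => (ε j).1
  let p : (j : Fin (Fintype.card (Fin d × t))) → (Fin (a j) → m) × (Fin (b j) → m) := fun j => (ε j).2.1.2.2
  set κ := CSQ_kap V a b c p with hκ
  have hκφ : ∀ (g : Γ) (w : (j : Fin (Fintype.card (Fin d × t))) → (Fin (a j) → m) × (Fin (b j) → m) → F) (x : X),
      κ w = φ x → κ (fun j => tens V (a j) (b j) g *ᵥ w j) = φ (T g x) := by
    intro g w x hw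
    funext i
    rw [hκ, CSQ_kap_equiv, hφ, CSQ_phi_equiv T hTm, ← hκ, ← hφ, hw]
  have hB : ∀ g, ∀ x ∈ (LinearMap.range φM).comap κ, (fun j => tens V (a j) (b j) g *ᵥ x j) ∈ (LinearMap.range φM).comap κ := by
    rintro g x ⟨y, hy⟩
    refine ⟨⟨T g y, hTM g y y.2⟩, ?_⟩
    exact (hκφ g x y hy.symm).symm
  let e := LinearEquiv.ofInjective φM hinj
  let κB : ((LinearMap.range φM).comap κ) →ₗ[F] LinearMap.range φM :=
    (κ.comp ((LinearMap.range φM).comap κ).subtype).codRestrict (LinearMap.range φM) (fun x => x.2)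
  have hπ : ∀ x : ((LinearMap.range φM).comap κ), κ x.1 = φ ((M.subtype.comp (e.symm.toLinearMap.comp κB)) x) := by
    intro x
    have h1 : e (e.symm (κB x)) = κB x := e.apply_symm_apply _
    have h2 := congrArg Subtype.val h1
    exact h2.symm
  refine ⟨_, a, b, (LinearMap.range φM).comap κ, hB, M.subtype.comp (e.symm.toLinearMap.comp κB), ?_, ?_⟩
  · intro x
    constructor
    · rintro ⟨y, rfl⟩
      exact (e.symm (κB y)).2
    · intro hx
      -- a preimage
      have h1 : ∀ i : Fin d, ∃ μ : ∀ k, Cs V k, (∑ k ∈ t, (μ k : Γ → F)) = φ x i := fun i =>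
        (Submodule.mem_iSup_finset_iff_exists_sum _ _).1 (hmem x hx i)
      choose μ hμ using h1
      have h2 : ∀ (i : Fin d) (k : Σ a b : ℕ, (Fin a → m) × (Fin b → m)), ∃ w : (Fin k.1 → m) × (Fin k.2.1 → m) → F,
          kap V k.1 k.2.1 k.2.2 w = μ i k := fun i k => (μ i k).2
      choose W hW using h2
      let w : (j : Fin (Fintype.card (Fin d × t))) → (Fin (a j) → m) × (Fin (b j) → m) → F := fun j => W (ε j).1 (ε j).2.1
      have hw : κ w = φ x := by
        funext i
        show (∑ j, if c j = i then kap V (a j) (b j) (p j) (w j) else 0) = φ x i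
        have h3 : ∀ j, (if c j = i then kap V (a j) (b j) (p j) (w j) else 0) =
            (fun q : Fin d × t => if q.1 = i then (μ q.1 q.2.1 : Γ → F) else 0) (ε j) := by
          intro j
          show (if (ε j).1 = i then kap V (ε j).2.1.1 (ε j).2.1.2.1 (ε j).2.1.2.2 (W (ε j).1 (ε j).2.1) else 0) = _
          rw [hW]
        rw [Finset.sum_congr rfl fun j _ => h3 j, Equiv.sum_comp ε (fun q : Fin d × t => if q.1 = i then (μ q.1 q.2.1 : Γ → F) else 0),
          Fintype.sum_prod_type]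
        rw [Finset.sum_eq_single i]
        · rw [← hμ i]
          simp only [if_true]
          exact Finset.sum_coe_sort t (fun k => (μ i k : Γ → F))
        · intro i' _ hi'
          refine Finset.sum_eq_zero fun k _ => ?_
          rw [if_neg hi']
        · intro h
          exact absurd (Finset.mem_univ i) h
      have hwB : w ∈ (LinearMap.range φM).comap κ := ⟨⟨x, hx⟩, hw.symm⟩
      refine ⟨⟨w, hwB⟩, ?_⟩
      have h4 := hπ ⟨w, hwB⟩
      have h5 : φ x = φ ((M.subtype.comp (e.symm.toLinearMap.comp κB)) ⟨w, hwB⟩) := by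
        rw [← h4]
        exact hw.symm
      have h6 : φM ⟨x, hx⟩ = φM (e.symm (κB ⟨w, hwB⟩)) := h5
      have h7 := hinj h6
      exact (congrArg Subtype.val h7).symm
  · intro g x
    have h1 := hκφ g x.1 _ (hπ x)
    have h2 := hπ ⟨fun j => tens V (a j) (b j) g *ᵥ x.1 j, hB g x.1 x.2⟩
    have h3 : φM (e.symm (κB ⟨fun j => tens V (a j) (b j) g *ᵥ x.1 j, hB g x.1 x.2⟩)) =
        φM ⟨T g (e.symm (κB x)), hTM g _ (e.symm (κB x)).2⟩ := h2.symm.trans h1
    exact congrArg Subtype.val (hinj h3)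

end Pool.Agent.TY
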