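import Pool.Agent.helper10.TY.Spec

set_option autoImplicit false

namespace Pool.Agent.TY

open Matrix Polynomial Pool.Agent.GO Pool.Agent.AR Pool.Agent.RG MeasureTheory

section DERsec

variable {F : Type*} [Field F] {Γ : Type*} [Group Γ] {r : ℕ}

/-- the weights -/
def DER_w (r : ℕ) : Fin r × Fin 2 → (Fin r → ℕ) := fun p => Pi.single p.1 1

theorem DER_weight (m : Fin r × Fin 2 →₀ ℕ) (k : Fin r) :
    Finsupp.weight (DER_w r) m k = m (k, 0) + m (k, 1) := by
  rw [Finsupp.weight_apply, Finsupp.sum_fintype m (fun i c => c • DER_w r i) (fun i => by simp), Finset.sum_apply, Fintype.sum_prod_type]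
  rw [Finset.sum_eq_single k]
  · rw [Fin.sum_univ_two]
    simp [DER_w]
  · intro k' _ hk
    rw [Fin.sum_univ_two]
    simp [DER_w, hk.symm]
  · intro h
    exact absurd (Finset.mem_univ k) h

theorem DER_mem (p : MvPolynomial (Fin r × Fin 2) F) (e : Fin r → ℕ) :
    p ∈ MultiHom F e ↔ MvPolynomial.IsWeightedHomogeneous (DER_w r) p e := by
  constructor
  · intro h d hd
    funext k
    rw [DER_weight]
    exact h d (MvPolynomial.mem_support_iff.2 hd) k
  · intro h m hm k
    rw [← DER_weight, h (MvPolynomial.mem_support_iff.1 hm)]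

theorem DER_act_X (ρ : Fin r → Γ →* Matrix (Fin 2) (Fin 2) F) (g : Γ) (p : Fin r × Fin 2) :
    act ρ g (MvPolynomial.X p) = ∑ i, MvPolynomial.C (ρ p.1 g i p.2) * MvPolynomial.X (p.1, i) := by
  unfold act
  rw [MvPolynomial.aeval_X]

theorem DER_hom_X (Z : Matrix (Fin 2) (Fin 2) F) (k : Fin r) (j : Fin 2) :
    MvPolynomial.IsWeightedHomogeneous (DER_w r)
      (∑ i, MvPolynomial.C (Z i j) * MvPolynomial.X (k, i) : MvPolynomial (Fin r × Fin 2) F) (Pi.single k 1) := by
  refine MvPolynomial.IsWeightedHomogeneous.sum _ _ _ fun i _ => ?_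
  exact MvPolynomial.IsWeightedHomogeneous.C_mul (MvPolynomial.isWeightedHomogeneous_X F (DER_w r) (k, i)) _

/-- `act` preserves `MultiHom` -/
theorem DER_act_mem (ρ : Fin r → Γ →* Matrix (Fin 2) (Fin 2) F) (e : Fin r → ℕ) (g : Γ)
    (p : MvPolynomial (Fin r × Fin 2) F) (hp : p ∈ MultiHom F e) : act ρ g p ∈ MultiHom F e := by
  rw [DER_mem] at hp
  have h1 : act ρ g p = ∑ d ∈ p.support, act ρ g (MvPolynomial.monomial d (p.coeff d)) := by
    conv_lhs => rw [MvPolynomial.as_sum p]
    rw [map_sum]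
  rw [h1]
  refine Submodule.sum_mem _ fun d hd => ?_
  rw [DER_mem]
  have hw := hp (MvPolynomial.mem_support_iff.1 hd)
  unfold act
  rw [MvPolynomial.aeval_monomial, MvPolynomial.algebraMap_eq]
  refine MvPolynomial.IsWeightedHomogeneous.C_mul ?_ _
  unfold Finsupp.prod
  have h2 := MvPolynomial.IsWeightedHomogeneous.prod (w := DER_w r) d.support
    (fun q => (∑ i, MvPolynomial.C (ρ q.1 g i q.2) * MvPolynomial.X (q.1, i) : MvPolynomial (Fin r × Fin 2) F) ^ d q)
    (fun q => d q • DER_w r q) (fun q _ => (DER_hom_X (ρ q.1 g) q.1 q.2).pow (d q))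
  rw [← hw, Finsupp.weight_apply]
  exact h2

/-- `act` is an action -/
theorem DER_act_mul (ρ : Fin r → Γ →* Matrix (Fin 2) (Fin 2) F) (g h : Γ) (p : MvPolynomial (Fin r × Fin 2) F) :
    act ρ g (act ρ h p) = act ρ (g * h) p := by
  have h1 : (act ρ g).comp (act ρ h) = act ρ (g * h) := by
    refine MvPolynomial.algHom_ext fun q => ?_
    rw [AlgHom.comp_apply, DER_act_X, DER_act_X, map_sum]
    have h2 : ∀ i : Fin 2, act ρ g (MvPolynomial.C (ρ q.1 h i q.2) * MvPolynomial.X (q.1, i)) =
        ∑ l, MvPolynomial.C (ρ q.1 h i q.2 * ρ q.1 g l i) * MvPolynomial.X (q.1, l) := by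
      intro i
      rw [map_mul, DER_act_X, ← MvPolynomial.algebraMap_eq, AlgHom.commutes, MvPolynomial.algebraMap_eq, Finset.mul_sum]
      refine Finset.sum_congr rfl fun l _ => ?_
      rw [MvPolynomial.C_mul]
      ring
    rw [Finset.sum_congr rfl fun i _ => h2 i, Finset.sum_comm]
    refine Finset.sum_congr rfl fun l _ => ?_
    rw [← Finset.sum_mul, ← map_sum]
    congr 2
    rw [map_mul, Matrix.mul_apply]
    refine Finset.sum_congr rfl fun i _ => ?_
    ring
  rw [← h1]
  rfl

theorem DER_act_one (ρ : Fin r → Γ →* Matrix (Fin 2) (Fin 2) F) (p : MvPolynomial (Fin r × Fin 2) F) :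
    act ρ 1 p = p := by
  have h1 : act ρ 1 = AlgHom.id F _ := by
    refine MvPolynomial.algHom_ext fun q => ?_
    rw [DER_act_X, AlgHom.id_apply, Fin.sum_univ_two, map_one]
    obtain ⟨k, j⟩ := q
    fin_cases j
    · show MvPolynomial.C ((1 : Matrix (Fin 2) (Fin 2) F) 0 0) * MvPolynomial.X (k, 0) +
        MvPolynomial.C ((1 : Matrix (Fin 2) (Fin 2) F) 1 0) * MvPolynomial.X (k, 1) = MvPolynomial.X (k, 0)
      simp
    · show MvPolynomial.C ((1 : Matrix (Fin 2) (Fin 2) F) 0 1) * MvPolynomial.X (k, 0) +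
        MvPolynomial.C ((1 : Matrix (Fin 2) (Fin 2) F) 1 1) * MvPolynomial.X (k, 1) = MvPolynomial.X (k, 1)
      simp
  rw [h1]
  rfl

/-- the derivation -/
noncomputable def DER_D (k : Fin r) (Z : Matrix (Fin 2) (Fin 2) F) :
    Derivation F (MvPolynomial (Fin r × Fin 2) F) (MvPolynomial (Fin r × Fin 2) F) :=
  MvPolynomial.mkDerivation F fun q => if q.1 = k then ∑ i, MvPolynomial.C (Z i q.2) * MvPolynomial.X (k, i) else 0

theorem DER_D_X (k : Fin r) (Z : Matrix (Fin 2) (Fin 2) F) (q : Fin r × Fin 2) :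
    DER_D k Z (MvPolynomial.X q) = if q.1 = k then ∑ i, MvPolynomial.C (Z i q.2) * MvPolynomial.X (k, i) else 0 := by
  unfold DER_D
  rw [MvPolynomial.mkDerivation_X]

/-- conjugation -/
theorem DER_conj (ρ : Fin r → Γ →* Matrix (Fin 2) (Fin 2) F) (k : Fin r) (Z : Matrix (Fin 2) (Fin 2) F) (g : Γ)
    (p : MvPolynomial (Fin r × Fin 2) F) :
    act ρ g (DER_D k Z (act ρ g⁻¹ p)) = DER_D k (ρ k g * Z * ρ k g⁻¹) p := by
  induction p using MvPolynomial.induction_on with
  | C a =>
    rw [← MvPolynomial.algebraMap_eq, AlgHom.commutes, Derivation.map_algebraMap, Derivation.map_algebraMap, map_zero]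
  | add p q hp hq =>
    rw [map_add, map_add, map_add, map_add, hp, hq]
  | mul_X p q hp =>
    rw [map_mul, Derivation.leibniz, Derivation.leibniz, map_add, smul_eq_mul, smul_eq_mul, smul_eq_mul, smul_eq_mul,
      map_mul, map_mul, DER_act_mul, DER_act_mul, mul_inv_cancel, DER_act_one, DER_act_one, hp]
    congr 2
    rw [DER_act_X, DER_D_X, map_sum, map_sum]
    by_cases hk : q.1 = k
    · subst hk
      rw [if_pos rfl]
      have h1 : ∀ i : Fin 2, act ρ g (DER_D q.1 Z (MvPolynomial.C (ρ q.1 g⁻¹ i q.2) * MvPolynomial.X (q.1, i))) =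
          ∑ l, ∑ l', MvPolynomial.C (ρ q.1 g⁻¹ i q.2 * Z l i * ρ q.1 g l' l) * MvPolynomial.X (q.1, l') := by
        intro i
        rw [← MvPolynomial.smul_eq_C_mul, Derivation.map_smul, map_smul, DER_D_X, if_pos rfl, map_sum, Finset.smul_sum]
        refine Finset.sum_congr rfl fun l _ => ?_
        rw [← MvPolynomial.smul_eq_C_mul, map_smul, DER_act_X, smul_smul, Finset.smul_sum]
        refine Finset.sum_congr rfl fun l' _ => ?_
        rw [← MvPolynomial.smul_eq_C_mul, ← MvPolynomial.smul_eq_C_mul, smul_smul]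
      rw [Finset.sum_congr rfl fun i _ => h1 i]
      have h2 : ∀ l' : Fin 2, (ρ q.1 g * Z * ρ q.1 g⁻¹) l' q.2 = ∑ i, ∑ l, ρ q.1 g⁻¹ i q.2 * Z l i * ρ q.1 g l' l := by
        intro l'
        rw [Matrix.mul_apply]
        refine Finset.sum_congr rfl fun i _ => ?_
        rw [Matrix.mul_apply, Finset.sum_mul]
        refine Finset.sum_congr rfl fun l _ => ?_
        ring
      have h3 : ∀ l' : Fin 2, MvPolynomial.C ((ρ q.1 g * Z * ρ q.1 g⁻¹) l' q.2) * MvPolynomial.X (q.1, l') =
          ∑ i, ∑ l, (MvPolynomial.C (ρ q.1 g⁻¹ i q.2 * Z l i * ρ q.1 g l' l) * MvPolynomial.X (q.1, l') : MvPolynomial (Fin r × Fin 2) F) := by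
        intro l'
        rw [h2, map_sum, Finset.sum_mul]
        refine Finset.sum_congr rfl fun i _ => ?_
        rw [map_sum, Finset.sum_mul]
      rw [Finset.sum_congr rfl fun l' _ => h3 l']
      refine Eq.trans ?_ Finset.sum_comm
      refine Finset.sum_congr rfl fun i _ => ?_
      exact Finset.sum_comm
    · rw [if_neg hk]
      refine Finset.sum_eq_zero fun i _ => ?_
      rw [← MvPolynomial.smul_eq_C_mul, Derivation.map_smul, map_smul, DER_D_X, if_neg hk, map_zero, smul_zero]

/-- the derivative of a monomial -/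
theorem DER_mono (k : Fin r) (Z : Matrix (Fin 2) (Fin 2) F) (t : Fin r × Fin 2 →₀ ℕ) :
    DER_D k Z (MvPolynomial.monomial t 1) =
      ∑ j : Fin 2, ∑ i : Fin 2, MvPolynomial.monomial (t - Finsupp.single (k, j) 1 + Finsupp.single (k, i) 1) ((t (k, j) : F) * Z i j) := by
  unfold DER_D
  rw [MvPolynomial.mkDerivation_monomial, one_smul, Finsupp.sum_fintype, Fintype.sum_prod_type]
  · rw [Finset.sum_eq_single k]
    · refine Finset.sum_congr rfl fun j _ => ?_
      rw [if_pos rfl, smul_eq_mul, Finset.mul_sum]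
      refine Finset.sum_congr rfl fun i _ => ?_
      rw [← mul_assoc, mul_comm _ (MvPolynomial.C (Z i j)), MvPolynomial.C_mul_monomial, MvPolynomial.X, MvPolynomial.monomial_mul, mul_one,
        mul_comm (Z i j)]
    · intro l _ hl
      refine Finset.sum_eq_zero fun j _ => ?_
      rw [if_neg hl, smul_zero]
    · intro h
      exact absurd (Finset.mem_univ k) h
  · intro q
    simp

/-- exponents of weight `e` -/
def DER_S (e : Fin r → ℕ) : Set (Fin r × Fin 2 →₀ ℕ) := {t | ∀ k, t (k, 0) + t (k, 1) = e k}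

theorem DER_S_fin (e : Fin r → ℕ) : (DER_S e).Finite := by
  refine Set.Finite.subset (Set.finite_Iic (Finsupp.equivFunOnFinite.symm fun q : Fin r × Fin 2 => e q.1)) ?_
  intro t ht
  rw [Set.mem_Iic]
  intro q
  obtain ⟨k, j⟩ := q
  have h := ht k
  show t (k, j) ≤ e k
  fin_cases j
  · show t (k, 0) ≤ e k
    omega
  · show t (k, 1) ≤ e k
    omega

theorem DER_mono_mem (e : Fin r → ℕ) (t : Fin r × Fin 2 →₀ ℕ) (ht : t ∈ DER_S e) (c : F) :
    MvPolynomial.monomial t c ∈ MultiHom F e := by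
  intro m hm k
  have := MvPolynomial.support_monomial_subset hm
  rw [Finset.mem_singleton] at this
  rw [this]
  exact ht k

theorem DER_shift (e : Fin r → ℕ) (t : Fin r × Fin 2 →₀ ℕ) (ht : t ∈ DER_S e) (k : Fin r) (i j : Fin 2) (h : 1 ≤ t (k, j)) :
    t - Finsupp.single (k, j) 1 + Finsupp.single (k, i) 1 ∈ DER_S e := by
  intro l
  have h1 := ht l
  rw [Finsupp.add_apply, Finsupp.add_apply, Finsupp.tsub_apply, Finsupp.tsub_apply, Finsupp.single_apply, Finsupp.single_apply,
    Finsupp.single_apply, Finsupp.single_apply]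
  by_cases hk : k = l
  · subst hk
    simp only [Prod.mk.injEq, true_and]
    fin_cases i <;> fin_cases j <;> simp at h ⊢ <;> omega
  · simp only [Prod.mk.injEq, hk, false_and, if_false]
    simpa using h1

theorem DER_D_mem (k : Fin r) (Z : Matrix (Fin 2) (Fin 2) F) (e : Fin r → ℕ) (t : Fin r × Fin 2 →₀ ℕ) (ht : t ∈ DER_S e) :
    DER_D k Z (MvPolynomial.monomial t 1) ∈ MultiHom F e := by
  rw [DER_mono]
  refine Submodule.sum_mem _ fun j _ => Submodule.sum_mem _ fun i _ => ?_
  by_cases h : t (k, j) = 0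
  · rw [h, Nat.cast_zero, zero_mul, map_zero]
    exact Submodule.zero_mem _
  · exact DER_mono_mem e _ (DER_shift e t ht k i j (by omega)) _

/-- expansion -/
theorem DER_exp (e : Fin r → ℕ) (p : MvPolynomial (Fin r × Fin 2) F) (hp : p ∈ MultiHom F e) :
    p = ∑ t ∈ (DER_S_fin e).toFinset, p.coeff t • MvPolynomial.monomial t 1 := by
  classical
  conv_lhs => rw [MvPolynomial.as_sum p]
  have h1 : p.support ⊆ (DER_S_fin e).toFinset := by
    intro m hm
    rw [Set.Finite.mem_toFinset]
    exact hp m hm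
  rw [Finset.sum_subset h1]
  · refine Finset.sum_congr rfl fun t _ => ?_
    rw [MvPolynomial.smul_monomial, smul_eq_mul, mul_one]
  · intro t _ ht
    rw [MvPolynomial.notMem_support_iff.1 ht, map_zero]

/-- the test exponent -/
noncomputable def DER_s (e : Fin r → ℕ) (k : Fin r) (j : Fin 2) : Fin r × Fin 2 →₀ ℕ :=
  Finsupp.equivFunOnFinite.symm fun q => if q.1 = k then (if q.2 = j then e k else 0) else (if q.2 = 0 then e q.1 else 0)

theorem DER_s_apply (e : Fin r → ℕ) (k : Fin r) (j : Fin 2) (q : Fin r × Fin 2) :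
    DER_s e k j q = if q.1 = k then (if q.2 = j then e k else 0) else (if q.2 = 0 then e q.1 else 0) := rfl

theorem DER_s_mem (e : Fin r → ℕ) (k : Fin r) (j : Fin 2) : DER_s e k j ∈ DER_S e := by
  intro l
  rw [DER_s_apply, DER_s_apply]
  by_cases hl : l = k
  · subst hl
    simp only [if_true]
    fin_cases j <;> simp
  · simp [hl]

end DERsec

theorem DER : DER_stmt := by
  classical
  intro F Γ m _ _ _ _ _ V r ρ e k hek hcoef i j i' j'
  -- the functions
  have hY : ∀ (Z : Matrix (Fin 2) (Fin 2) F) (i j : Fin 2), (fun g => (ρ k g * Z * ρ k g⁻¹) i j) ∈ alg V := by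
    intro Z i j
    set s := DER_s e k j with hs
    set P : MvPolynomial (Fin r × Fin 2) F := MvPolynomial.monomial s 1 with hP
    have hPm : P ∈ MultiHom F e := DER_mono_mem e s (DER_s_mem e k j) 1
    set qe : Fin r × Fin 2 →₀ ℕ := s - Finsupp.single (k, j) 1 + Finsupp.single (k, i) 1 with hqe
    -- the coefficient
    have h1 : ∀ Y : Matrix (Fin 2) (Fin 2) F, (DER_D k Y P).coeff qe = (e k : F) * Y i j := by
      intro Y
      rw [hP, DER_mono, MvPolynomial.coeff_sum, Finset.sum_eq_single j]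
      · rw [MvPolynomial.coeff_sum, Finset.sum_eq_single i]
        · rw [← hqe, MvPolynomial.coeff_monomial, if_pos rfl, hs, DER_s_apply]
          simp
        · intro l _ hl
          rw [MvPolynomial.coeff_monomial, if_neg]
          intro h2
          have h3 := DFunLike.congr_fun (add_left_cancel h2) (k, l)
          rw [Finsupp.single_apply, Finsupp.single_apply, if_pos rfl, if_neg] at h3
          · exact absurd h3 one_ne_zero
          · intro h4
            exact hl (Prod.mk.inj h4).2.symm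
        · intro h
          exact absurd (Finset.mem_univ i) h
      · intro l _ hl
        have h2 : s (k, l) = 0 := by
          rw [hs, DER_s_apply]
          simp [hl]
        rw [h2]
        simp
      · intro h
        exact absurd (Finset.mem_univ j) h
    -- the expansion
    have h2 : (fun g => (DER_D k (ρ k g * Z * ρ k g⁻¹) P).coeff qe) =
        ∑ t ∈ (DER_S_fin e).toFinset, ((iv fun g => (act ρ g P).coeff t) * fun g => (act ρ g (DER_D k Z (MvPolynomial.monomial t 1))).coeff qe) := by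
      funext g
      rw [← DER_conj, Finset.sum_apply]
      have h3 := DER_exp e (act ρ g⁻¹ P) (DER_act_mem ρ e g⁻¹ P hPm)
      have h4 : act ρ g (DER_D k Z (act ρ g⁻¹ P)) = ∑ t ∈ (DER_S_fin e).toFinset, (act ρ g⁻¹ P).coeff t •
          act ρ g (DER_D k Z (MvPolynomial.monomial t 1)) := by
        conv_lhs => rw [h3]
        rw [map_sum, map_sum]
        refine Finset.sum_congr rfl fun t _ => ?_
        rw [Derivation.map_smul, map_smul]
      rw [h4, MvPolynomial.coeff_sum]
      refine Finset.sum_congr rfl fun t _ => ?_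
      rw [MvPolynomial.coeff_smul, smul_eq_mul]
      rfl
    have h5 : (fun g => (DER_D k (ρ k g * Z * ρ k g⁻¹) P).coeff qe) ∈ alg V := by
      rw [h2]
      refine Subalgebra.sum_mem _ fun t ht => Subalgebra.mul_mem _ (alg_iv V ?_) ?_
      · exact hcoef (MvPolynomial.lcoeff F t) P hPm
      · exact hcoef (MvPolynomial.lcoeff F qe) _ (DER_D_mem k Z e t ((DER_S_fin e).mem_toFinset.1 ht))
    have h6 : (fun g => (ρ k g * Z * ρ k g⁻¹) i j) = ((e k : F)⁻¹) • (fun g => (DER_D k (ρ k g * Z * ρ k g⁻¹) P).coeff qe) := by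
      funext g
      rw [Pi.smul_apply, h1, smul_eq_mul, ← mul_assoc, inv_mul_cancel₀ (by exact_mod_cast hek), one_mul]
    rw [h6]
    exact Subalgebra.smul_mem _ h5 _
  have h7 := hY (Matrix.single j i' 1) i j'
  have h8 : (fun g => (ρ k g * (Matrix.single j i' (1 : F) : Matrix (Fin 2) (Fin 2) F) * ρ k g⁻¹) i j') = fun g => ρ k g i j * ρ k g⁻¹ i' j' := by
    funext g
    rw [Matrix.mul_apply, Finset.sum_eq_single i']
    · rw [Matrix.mul_single_apply_same, mul_one]
    · intro l _ hl
      rw [Matrix.mul_single_apply_of_ne, zero_mul]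
      exact hl
    · intro h
      exact absurd (Finset.mem_univ i') h
  rw [← h8]
  exact h7

end Pool.Agent.TY
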