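import Pool.Agent.helper10.TY.Spec

set_option autoImplicit false

namespace Pool.Agent.TY

open Matrix Polynomial Pool.Agent.GO Pool.Agent.AR Pool.Agent.RG MeasureTheory

universe u v w x

/-- roots of a monic polynomial over an algebraically closed field, as a family -/
theorem REL_roots {F : Type*} [Field F] [IsAlgClosed F] (p : F[X]) (hp : p.Monic) (n : ℕ) (hn : p.natDegree = n) :
    ∃ z : Fin n → F, p = ∏ i, (X - C (z i)) := by
  induction n generalizing p with
  | zero =>
    refine ⟨Fin.elim0, ?_⟩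
    rw [Finset.univ_eq_empty, Finset.prod_empty]
    exact (Polynomial.Monic.natDegree_eq_zero hp).1 hn
  | succ n ih =>
    have hd : p.degree ≠ 0 := by
      intro h
      rw [Polynomial.degree_eq_natDegree hp.ne_zero, hn] at h
      exact absurd (by exact_mod_cast h : n + 1 = 0) (Nat.succ_ne_zero n)
    obtain ⟨a, ha⟩ := IsAlgClosed.exists_root p hd
    obtain ⟨q, hq⟩ := Polynomial.dvd_iff_isRoot.2 ha
    have hqm : q.Monic := by
      have h1 : (X - C a).Monic := monic_X_sub_C a
      rw [hq] at hp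
      exact h1.of_mul_monic_left hp
    have hqn : q.natDegree = n := by
      have h1 : ((X - C a) * q).natDegree = 1 + q.natDegree := by
        rw [(monic_X_sub_C a).natDegree_mul hqm, natDegree_X_sub_C]
      rw [← hq, hn] at h1
      omega
    obtain ⟨z, hz⟩ := ih q hqm hqn
    refine ⟨Fin.cons a z, ?_⟩
    rw [Fin.prod_univ_succ, hq, hz]
    simp only [Fin.cons_zero, Fin.cons_succ]

/-- the determinant is the product of the roots -/
theorem REL_det {F κ : Type*} [Field F] [Fintype κ] [DecidableEq κ] (A : Matrix κ κ F) (n : ℕ) (z : Fin n → F)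
    (hz : A.charpoly = ∏ i, (X - C (z i))) : A.det = ∏ i, z i := by
  have hn : Fintype.card κ = n := by
    have h1 := Matrix.charpoly_natDegree_eq_dim A
    rw [hz, Polynomial.natDegree_prod_of_monic _ _ (fun i _ => monic_X_sub_C (z i))] at h1
    simp at h1
    exact h1.symm
  rw [Matrix.det_eq_sign_charpoly_coeff, hz, Polynomial.coeff_zero_eq_eval_zero, Polynomial.eval_prod, hn]
  simp only [Polynomial.eval_sub, Polynomial.eval_X, Polynomial.eval_C, zero_sub]
  rw [Finset.prod_neg, Finset.card_univ, Fintype.card_fin, ← mul_assoc, ← mul_pow]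
  simp

/-- the value of the universal polynomial -/
noncomputable def REL_H {Γ F : Type*} [Group Γ] [Field F] {s : ℕ} {n : Fin s → ℕ}
    (V : (i : Fin s) → Γ →* Matrix (Fin (n i)) (Fin (n i)) F) (G : (MvPolynomial ℕ ℤ)[X]) (D : ℕ) (g : Γ) (y : F) : F :=
  (G.map (MvPolynomial.eval₂Hom (Int.castRingHom F) fun k => (dirSum V g).charpoly.coeff k)).eval
    ((dirSum V g).det ^ D * y)

theorem REL_H_prod {Γ F : Type*} [Group Γ] [Field F] {s : ℕ} {n : Fin s → ℕ}
    (V : (i : Fin s) → Γ →* Matrix (Fin (n i)) (Fin (n i)) F) (G : (MvPolynomial ℕ ℤ)[X]) (D N B m : ℕ) (g : Γ) (y : F)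
    (z : Fin m → F) (hz : (dirSum V g).charpoly = ∏ i, (X - C (z i)))
    (hG : G.map (MvPolynomial.eval₂Hom (Int.castRingHom F) fun k => (∏ i, (X - C (z i))).coeff k) =
      ∏ t : Fin N → Fin m → Fin (B + 1), (X - C (∑ χ, ∏ i, z i ^ (t χ i : ℕ)))) :
    REL_H V G D g y = ∏ t : Fin N → Fin m → Fin (B + 1), ((dirSum V g).det ^ D * y - ∑ χ, ∏ i, z i ^ (t χ i : ℕ)) := by
  unfold REL_H
  rw [hz, hG, Polynomial.eval_prod]
  refine Finset.prod_congr rfl fun t _ => ?_
  rw [Polynomial.eval_sub, Polynomial.eval_X, Polynomial.eval_C]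

theorem REL (hS : SYM_stmt.{u}) (hM : MON1_stmt.{u, v, 0}) (hH : HCT_stmt.{v, u}) : REL_stmt.{v, x, w, u} := by
  classical
  intro Γ Place E F _ _ _ _ _ μ _ frob hdense _ _ _ _ _ _ _ s n P r Q ι V ρ hV hρ hcV hcρ c U hU N a b heig
  -- the universal polynomial
  set M : ℕ := Fintype.card (Σ i : Fin s, Fin (n i)) with hMd
  set NN : ℕ := c.powerset.card with hNN
  set D : ℕ := Finset.univ.sup b with hD
  set B : ℕ := Finset.univ.sup a + D with hB
  obtain ⟨G, hG⟩ := hS NN B M
  -- traces
  set t : Γ → F := fun g => ∏ k ∈ c, (ρ k g).trace with ht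
  have htc : Continuous t := by
    rw [ht]
    exact continuous_finsetProd _ fun k _ => (hρ k).matrix_trace
  have hdc : Continuous fun g => (dirSum V g).det := (dirSum_continuous V hV).matrix_det
  -- continuity
  have hHc : Continuous fun g => REL_H V G D g (-t g) := by
    unfold REL_H
    exact hH V hV G (fun g => (dirSum V g).det ^ D * (-t g)) ((hdc.pow D).mul htc.neg)
  set O : Set Γ := {g | REL_H V G D g (-t g) ≠ 0} with hO
  have hOo : IsOpen O := isOpen_ne_fun hHc continuous_const
  -- roots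
  have hroots : ∀ g : Γ, ∃ z : Fin M → F, (dirSum V g).charpoly = ∏ i, (X - C (z i)) := fun g =>
    REL_roots _ (Matrix.charpoly_monic _) M (Matrix.charpoly_natDegree_eq_dim _)
  -- the identity
  have h1O : (1 : Γ) ∈ O := by
    show REL_H V G D 1 (-t 1) ≠ 0
    have hz : (dirSum V (1 : Γ)).charpoly = ∏ i : Fin M, (X - C (1 : F)) := by
      rw [map_one, Finset.prod_const, Finset.card_univ, Fintype.card_fin]
      rw [Matrix.charpoly_one]
      simp [hMd]
    rw [REL_H_prod V G D NN B M 1 _ (fun _ => (1 : F)) hz (hG _), Finset.prod_ne_zero_iff]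
    intro τ _
    have ht1 : t 1 = (NN : F) := by
      rw [ht, hNN, Finset.card_powerset]
      simp only [map_one, Matrix.trace_one, Fintype.card_fin]
      rw [Finset.prod_const]
      push_cast
      rfl
    rw [ht1, map_one, Matrix.det_one, one_pow, one_mul]
    simp only [one_pow, Finset.prod_const_one, Finset.sum_const, Finset.card_univ, Fintype.card_fin, nsmul_eq_mul, mul_one]
    have hpos : NN ≠ 0 := by
      rw [hNN, Finset.card_powerset]
      positivity
    have : (-(NN : F) - NN) = -(((2 * NN : ℕ)) : F) := by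
      push_cast
      ring
    rw [this, neg_ne_zero, Nat.cast_ne_zero]
    omega
  -- the root
  have hroot : ∀ g ∈ U, REL_H V G D g (t g) = 0 := by
    intro g hg
    obtain ⟨z, hz⟩ := hroots g
    rw [REL_H_prod V G D NN B M g _ z hz (hG _), Finset.prod_eq_zero_iff]
    -- eigenvalues
    have he : ∀ k : Fin r, ∃ α β : F, Eig (ρ k g) α ∧ Eig (ρ k g) β ∧ α + β = (ρ k g).trace ∧ α * β = (ρ k g).det := fun k => eig_two _
    choose α β hα hβ hsum hprod using he
    have hdet : ∀ k, (ρ k g).det ≠ 0 := by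
      intro k h0
      have h1 : ρ k g * ρ k g⁻¹ = 1 := by rw [← map_mul, mul_inv_cancel, map_one]
      have h2 := congrArg Matrix.det h1
      rw [Matrix.det_mul, h0, zero_mul, Matrix.det_one] at h2
      exact zero_ne_one h2
    have hα0 : ∀ k, α k ≠ 0 := fun k h0 => hdet k (by rw [← hprod, h0, zero_mul])
    have hβ0 : ∀ k, β k ≠ 0 := fun k h0 => hdet k (by rw [← hprod, h0, mul_zero])
    have hexp : t g = ∑ A ∈ c.powerset, ∏ k ∈ c, (if k ∈ A then α k else β k) := by
      show ∏ k ∈ c, (ρ k g).trace = _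
      rw [Finset.prod_congr rfl fun k _ => (hsum k).symm, Finset.prod_add]
      refine Finset.sum_congr rfl fun A hA => ?_
      rw [Finset.mem_powerset] at hA
      rw [← Finset.prod_sdiff hA (f := fun k => if k ∈ A then α k else β k), mul_comm]
      congr 1
      · refine Finset.prod_congr rfl fun k hk => ?_
        rw [if_neg (Finset.mem_sdiff.1 hk).2]
      · refine Finset.prod_congr rfl fun k hk => ?_
        rw [if_pos hk]
    have hmon : ∀ A : Finset (Fin r), ∃ τ : Fin M → Fin (B + 1),
        (dirSum V g).det ^ D * (∏ k ∈ c, (if k ∈ A then α k else β k)) = ∏ i, z i ^ (τ i : ℕ) := by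
      intro A
      obtain ⟨j, hj⟩ := heig g hg (fun k => if k ∈ A then α k else β k) (by
        intro k _
        split_ifs
        · exact hα k
        · exact hβ k)
      have hne : (∏ k ∈ c, (if k ∈ A then α k else β k)) ≠ 0 := by
        rw [Finset.prod_ne_zero_iff]
        intro k _
        split_ifs
        · exact hα0 k
        · exact hβ0 k
      obtain ⟨τ, hτ⟩ := hM (dirSum V) (a j) (b j) D M g z hz (Finset.le_sup (Finset.mem_univ j)) _ hne hj
      have hle : a j + D + 1 ≤ B + 1 := by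
        have := Finset.le_sup (f := a) (Finset.mem_univ j)
        omega
      refine ⟨fun i => Fin.castLE hle (τ i), ?_⟩
      rw [REL_det _ M z hz, mul_comm, hτ]
      rfl
    choose τ hτ using hmon
    have ε : Fin NN ≃ c.powerset := by
      rw [hNN]
      exact (Finset.equivFin _).symm
    refine ⟨fun χ => τ (ε χ).1, Finset.mem_univ _, ?_⟩
    rw [sub_eq_zero, hexp, Finset.mul_sum]
    have h2 : ∑ χ : Fin NN, ∏ i, z i ^ ((τ (ε χ).1 i : ℕ)) = ∑ A : c.powerset, ∏ i, z i ^ ((τ A.1 i : ℕ)) :=
      Equiv.sum_comp ε (fun A : c.powerset => ∏ i, z i ^ ((τ A.1 i : ℕ)))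
    rw [h2, Finset.sum_coe_sort c.powerset (fun A => ∏ i, z i ^ ((τ A i : ℕ)))]
    exact Finset.sum_congr rfl fun A _ => hτ A
  -- the places
  choose TV hTV hTV' using hcV
  choose Tρ hTρ hTρ' using hcρ
  set T : Set Place := (⋃ i, TV i) ∪ ⋃ k, Tρ k with hT
  have hTf : T.Finite := (Set.finite_iUnion hTV).union (Set.finite_iUnion hTρ)
  have hTi : ∀ v ∉ T, ∀ i, v ∉ TV i := fun v hv i h => hv (Or.inl (Set.mem_iUnion.2 ⟨i, h⟩))
  have hTk : ∀ v ∉ T, ∀ k, v ∉ Tρ k := fun v hv k h => hv (Or.inr (Set.mem_iUnion.2 ⟨k, h⟩))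
  set d₀ : MvPolynomial (Fin s × ℕ) E := (∏ i, genP E i (n i)).coeff 0 with hd₀
  set HH : MvPolynomial ℕ ℤ →+* MvPolynomial (Fin s × ℕ) E :=
    MvPolynomial.eval₂Hom (Int.castRingHom _) (fun k => (∏ i, genP E i (n i)).coeff k) with hHH
  refine ⟨{v | v ∉ T ∧ ∃ s ∈ frob v, s ∈ (U : Set Γ) ∩ O}, (G.map HH).comp (C (((-1) ^ M * d₀) ^ D) * X), ?_, ?_⟩
  · intro K T' hK hK0 hT'
    have hne : (((U : Set Γ) ∩ O) ∩ Kᶜ).Nonempty := by
      by_contra hcon
      rw [Set.not_nonempty_iff_eq_empty] at hcon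
      have h3 : (U : Set Γ) ∩ O ⊆ K := by
        intro y hy
        by_contra hyK
        have : y ∈ ((U : Set Γ) ∩ O) ∩ Kᶜ := ⟨hy, hyK⟩
        rw [hcon] at this
        exact this
      have h4 : μ ((U : Set Γ) ∩ O) = 0 := measure_mono_null h3 hK0
      have h5 := (hU.inter hOo).measure_eq_zero_iff μ |>.1 h4
      have h6 : (1 : Γ) ∈ (U : Set Γ) ∩ O := ⟨U.one_mem, h1O⟩
      rw [h5] at h6
      exact h6
    obtain ⟨g, hg⟩ := hne
    obtain ⟨v, -, hvT, s', hs', -, hsO⟩ := hdense (((U : Set Γ) ∩ O) ∩ Kᶜ) (T ∪ T') ((hU.inter hOo).inter hK.isOpen_compl)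
      ⟨g, hg, Subgroup.mem_top g⟩ (hTf.union hT')
    rw [Set.mem_union, not_or] at hvT
    exact ⟨v, ⟨hvT.1, s', hs', hsO.1⟩, hvT.2, s', hs', hsO.2⟩
  · rintro v ⟨hvT, g, hg, hgU, hgO⟩
    have hchar : (dirSum V g).charpoly = (∏ i, P i v).map ι := by
      rw [charpoly_dirSum', Polynomial.map_prod]
      exact Finset.prod_congr rfl fun i _ => hTV' i v (hTi v hvT i) g hg
    have hmon : ∀ i, (P i v).Monic ∧ (P i v).natDegree = n i := by
      intro i
      have h1 := hTV' i v (hTi v hvT i) g hg
      refine ⟨?_, ?_⟩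
      · refine Polynomial.monic_of_injective ι.injective ?_
        rw [← h1]
        exact Matrix.charpoly_monic _
      · rw [← Polynomial.natDegree_map ι, ← h1, Matrix.charpoly_natDegree_eq_dim, Fintype.card_fin]
    set ev : MvPolynomial (Fin s × ℕ) E →+* E := MvPolynomial.eval (fun k : Fin s × ℕ => (P k.1 v).coeff k.2) with hev
    have hgen : (∏ i, genP E i (n i)).map ev = ∏ i, P i v := by
      rw [Polynomial.map_prod]
      exact Finset.prod_congr rfl fun i _ => genP_map i (n i) (fun j => P j v) (hmon i).1 (hmon i).2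
    have hcomp : (ι.comp (ev.comp HH)) = MvPolynomial.eval₂Hom (Int.castRingHom F) (fun k => (dirSum V g).charpoly.coeff k) := by
      refine MvPolynomial.ringHom_ext (fun z => ?_) (fun k => ?_)
      · simp
      · rw [RingHom.comp_apply, RingHom.comp_apply, hHH, MvPolynomial.eval₂Hom_X', MvPolynomial.eval₂Hom_X', hchar,
          Polynomial.coeff_map, ← hgen, Polynomial.coeff_map]
    have hdet : ι (ev ((-1) ^ M * d₀)) = (dirSum V g).det := by
      rw [Matrix.det_eq_sign_charpoly_coeff, hchar, Polynomial.coeff_map, ← hgen, Polynomial.coeff_map, map_mul, map_mul]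
      simp [hMd, hd₀]
    have hval : ∀ y : E, ι ((((G.map HH).comp (C (((-1) ^ M * d₀) ^ D) * X)).map ev).eval y) = REL_H V G D g (ι y) := by
      intro y
      unfold REL_H
      have e1 : Polynomial.map (ι.comp (ev.comp HH)) G = ((G.map HH).map ev).map ι := by
        rw [Polynomial.map_map, Polynomial.map_map]
        rfl
      rw [Polynomial.map_comp, Polynomial.eval_comp, ← hcomp, ← hdet, e1,
        Polynomial.map_mul, Polynomial.map_X, Polynomial.map_C, Polynomial.eval_mul, Polynomial.eval_X, Polynomial.eval_C,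
        ← map_pow, ← map_pow, ← map_mul, Polynomial.eval_map_apply]
    have htr : ∀ k, (ρ k g).trace = ι (-(Q k v).coeff 1) := by
      intro k
      have h1 := hTρ' k v (hTk v hvT k) g hg
      rw [Matrix.charpoly_fin_two] at h1
      have h2 := congrArg (fun p : F[X] => p.coeff 1) h1
      simp only [Polynomial.coeff_map] at h2
      rw [map_neg, ← h2]
      simp [Polynomial.coeff_C]
    have htt : ι (∏ k ∈ c, -(Q k v).coeff 1) = t g := by
      rw [map_prod]
      exact Finset.prod_congr rfl fun k _ => (htr k).symm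
    constructor
    · show Polynomial.eval _ _ = 0
      apply ι.injective
      rw [hval, htt, map_zero]
      exact hroot g hgU
    · intro h
      rw [Polynomial.IsRoot.def] at h
      have h4 := congrArg ι h
      rw [hval, map_neg, htt, map_zero] at h4
      exact hgO h4

end Pool.Agent.TY
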